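import Pool.Agent.Helper813.DC.A9
import Pool.Agent.Helper813.DC.B7
import Pool.Agent.Helper813.DC.Link
import Pool.Agent.Helper813.DC.RankN

set_option autoImplicit false

namespace Pool.Agent.Results.MP_dc96bc_co.Representable

/-- Every non-splitting geometry which is representable over some field and has characteristic
polynomial (x-1)(x-2)...(x-n) is the cycle geometry of the complete graph on n+1 vertices. -/
theorem result :
    ∀ (K : Type) [Field K] (m : ℕ) (α : Type) [Fintype α] [DecidableEq α] (M : Matroid α)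
      (v : α → (Fin m → K)) (n : ℕ) (r : Finset α → ℕ),
      1 ≤ n →
      M.E = Set.univ →
      (∀ a b : α, M.Indep ({a, b} : Set α)) →
      (∀ I : Set α, M.Indep I ↔ LinearIndepOn K v I) →
      (∀ X : Finset α, IsGreatest
          {k : ℕ | ∃ I : Finset α, I ⊆ X ∧ M.Indep (↑I : Set α) ∧ I.card = k} (r X)) →
      (¬ ∃ F₁ F₂ : Finset α,
          (∀ e, e ∉ F₁ → r F₁ < r (insert e F₁)) ∧
          (∀ e, e ∉ F₂ → r F₂ < r (insert e F₂)) ∧
          F₁ ≠ Finset.univ ∧ F₂ ≠ Finset.univ ∧ F₁ ∪ F₂ = Finset.univ) →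
      (∑ X : Finset α, (-1 : Polynomial ℤ) ^ X.card * Polynomial.X ^ (r Finset.univ - r X))
        = ∏ i ∈ Finset.Icc 1 n, (Polynomial.X - Polynomial.C (i : ℤ)) →
      ∃ e : α ≃ {s : Sym2 (Fin (n + 1)) // ¬ s.IsDiag},
        ∀ I : Set α, M.Indep I ↔
          (SimpleGraph.fromEdgeSet (Subtype.val '' (e '' I))).IsAcyclic := by
  intro K _ m α _ _ M v n r hn _ hs hv hr hsplit hχ
  have hR : DC813.IsRk r := DC813.Link.isRk_of_matroid M r hr
  have hindep := DC813.Link.indep_iff M r hr
  have hs' : ∀ a b : α, r {a, b} = ({a, b} : Finset α).card := by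
    intro a b
    have h := hs a b
    rw [show ({a, b} : Set α) = (({a, b} : Finset α) : Set α) by simp] at h
    exact (hindep _).1 h
  have hrd : DC813.Round r Finset.univ := DC813.Link.round_of_nonsplit r hR hsplit
  have hrk : DC813.rk v = r := funext (DC813.Link.rk_eq v M r hr (fun I => hv I))
  have hcard : r Finset.univ = n := DC813.RankN.rank_eq n r hR hs' hχ
  have hcrit : DC813.Crit r := by
    have := DC813.A9.crit_of_rep n hn v (by rw [hrk]; exact hrd) (by rw [hrk]; exact hs')
      (by rw [hrk]; exact hχ) (by rw [hrk]; exact hcard)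
    rw [hrk] at this
    exact this
  obtain ⟨e, he⟩ := DC813.B7.T1 n hn r hR hs' hcrit hχ
  refine ⟨e, fun I => ?_⟩
  have hfin : I.Finite := Set.toFinite I
  lift I to Finset α using hfin
  rw [hindep, he]

end Pool.Agent.Results.MP_dc96bc_co.Representable
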